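import Pool.Agent.X308.R.Mld
import Mathlib.Topology.Order.MonotoneConvergence

/-!
# Derived sets from the left of the sets of minimal log discrepancies
-/

set_option autoImplicit false

namespace Pool.Agent.X308.R

open Filter Topology

/-- The limits of the strictly increasing convergent sequences in `S`. -/
def leftLimits (S : Set ℝ) : Set ℝ :=
  {a | ∃ u : ℕ → ℝ, StrictMono u ∧ (∀ i, u i ∈ S) ∧ Tendsto u atTop (𝓝 a)}

/-- The `r`-th derived set from the left. -/
def derivedLeft (r : ℕ) (S : Set ℝ) : Set ℝ := leftLimits^[r] S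

/-- Every nondecreasing bounded sequence in `S` is eventually constant. -/
def BoundedACC (S : Set ℝ) : Prop :=
  ∀ u : ℕ → ℝ, Monotone u → (∀ i, u i ∈ S) → BddAbove (Set.range u) →
    ∃ N, ∀ i, N ≤ i → u i = u N

/-- Every nondecreasing sequence in `S` is eventually constant. -/
def ACC (S : Set ℝ) : Prop :=
  ∀ u : ℕ → ℝ, Monotone u → (∀ i, u i ∈ S) → ∃ N, ∀ i, N ≤ i → u i = u N

theorem boundedACC_iff (S : Set ℝ) : BoundedACC S ↔ leftLimits S = ∅ := by
  constructor
  · intro h
    rw [Set.eq_empty_iff_forall_notMem]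
    rintro a ⟨u, hu, hS, ha⟩
    obtain ⟨N, hN⟩ := h u hu.monotone hS ha.bddAbove_range
    exact (hu (Nat.lt_succ_self N)).ne' (hN _ (Nat.le_succ N))
  · intro h u hu hS hb
    by_contra hc
    push Not at hc
    have hnext : ∀ N, ∃ i, u N < u i := by
      intro N
      obtain ⟨i, hi, hne⟩ := hc N
      exact ⟨i, lt_of_le_of_ne (hu hi) (Ne.symm hne)⟩
    choose g hg using hnext
    have hmono : StrictMono fun n => u (g^[n] 0) := by
      refine strictMono_nat_of_lt_succ fun n => ?_
      rw [Function.iterate_succ_apply']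
      exact hg _
    have hbd : BddAbove (Set.range fun n => u (g^[n] 0)) := by
      obtain ⟨B, hB⟩ := hb
      exact ⟨B, by rintro _ ⟨n, rfl⟩; exact hB ⟨_, rfl⟩⟩
    have : (⨆ n, u (g^[n] 0)) ∈ leftLimits S :=
      ⟨_, hmono, fun i => hS _, tendsto_atTop_ciSup hmono.monotone hbd⟩
    rw [h] at this
    exact this

lemma derivedLeft_succ (r : ℕ) (S : Set ℝ) :
    derivedLeft (r + 1) S = leftLimits (derivedLeft r S) :=
  Function.iterate_succ_apply' _ _ _

lemma leftLimits_mono {S T : Set ℝ} (h : S ⊆ T) : leftLimits S ⊆ leftLimits T := by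
  rintro a ⟨u, hu, hS, ha⟩
  exact ⟨u, hu, fun i => h (hS i), ha⟩

lemma add_mem_leftLimits {S T : Set ℝ} {x : ℝ} (h : ∀ a ∈ S, a + x ∈ T) :
    ∀ a ∈ leftLimits S, a + x ∈ leftLimits T := by
  rintro a ⟨u, hu, hS, ha⟩
  exact ⟨fun i => u i + x, hu.add_const x, fun i => h _ (hS i), ha.add_const x⟩

lemma add_mem_derivedLeft {S T : Set ℝ} {x : ℝ} (h : ∀ a ∈ S, a + x ∈ T) (r : ℕ) :
    ∀ a ∈ derivedLeft r S, a + x ∈ derivedLeft r T := by
  induction r with
  | zero => exact h
  | succ r ih =>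
    rw [derivedLeft_succ, derivedLeft_succ]
    exact add_mem_leftLimits ih

lemma derivedLeft_nonempty_of_le {S : Set ℝ} {r p : ℕ} (h : r ≤ p)
    (hp : (derivedLeft p S).Nonempty) : (derivedLeft r S).Nonempty := by
  induction p, h using Nat.le_induction with
  | base => exact hp
  | succ p _ ih =>
    apply ih
    rw [derivedLeft_succ] at hp
    obtain ⟨a, u, -, hS, -⟩ := hp
    exact ⟨u 0, hS 0⟩

/-- The sets `Ω d` of the values in dimension `d`: closed under the addition of values in the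
different dimensions, and `1` is a value in dimension one. -/
structure ValueSets where
  /-- the set of values in dimension `d` -/
  Ω : ℕ → Set ℝ
  add_mem : ∀ d e, ∀ a ∈ Ω d, ∀ b ∈ Ω e, a + b ∈ Ω (d + e)
  one_mem : (1 : ℝ) ∈ Ω 1

namespace ValueSets

variable (V : ValueSets)

/-- In a sequence of dimensions `d t → ∞`, the derived set of order `r t = o (d t)` is empty. -/
def SmallRank : Prop :=
  ∃ d r : ℕ → ℕ, Tendsto d atTop atTop ∧ Tendsto (fun t => (r t : ℝ) / d t) atTop (𝓝 0) ∧
    ∀ t, derivedLeft (r t) (V.Ω (d t)) = ∅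

/-- In a sequence of dimensions `d t → ∞` all values are at most `d t + f t` with
`f t = o (d t)`. -/
def AlmostBounded : Prop :=
  ∃ (d : ℕ → ℕ) (f : ℕ → ℝ), Tendsto d atTop atTop ∧
    Tendsto (fun t => f t / d t) atTop (𝓝 0) ∧ ∀ t, ∀ a ∈ V.Ω (d t), a ≤ d t + f t

lemma mem_power {n : ℕ} {a : ℝ} (ha : a ∈ leftLimits (V.Ω n)) (j i : ℕ) :
    ((j + 1 : ℕ) : ℝ) * a + i ∈ derivedLeft (j + 1) (V.Ω ((j + 1) * n + i)) := by
  induction i with
  | zero =>
    induction j with
    | zero => simpa [derivedLeft] using ha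
    | succ j ih =>
      obtain ⟨u, hu, hS, hlim⟩ := ha
      rw [derivedLeft_succ]
      refine ⟨fun k => (((j + 1 : ℕ) : ℝ) * a + (0 : ℕ)) + u k, hu.const_add _, fun k => ?_, ?_⟩
      · refine add_mem_derivedLeft (S := V.Ω ((j + 1) * n + 0)) ?_ _ _ ih
        intro b hb
        have := V.add_mem _ _ b hb (u k) (hS k)
        convert this using 2
        ring
      · have := hlim.const_add (((j + 1 : ℕ) : ℝ) * a + (0 : ℕ))
        convert this using 2
        push_cast
        ring
  | succ i ih =>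
    have h := add_mem_derivedLeft (S := V.Ω ((j + 1) * n + i)) (T := V.Ω ((j + 1) * n + (i + 1)))
      (x := 1) (fun b hb => V.add_mem _ _ b hb 1 V.one_mem) (j + 1) _ ih
    have e : ((j + 1 : ℕ) : ℝ) * a + (i + 1 : ℕ) = ((j + 1 : ℕ) : ℝ) * a + i + 1 := by
      push_cast; ring
    rw [e]
    exact h

lemma mem_multiple {n : ℕ} {a : ℝ} (ha : a ∈ V.Ω n) (j i : ℕ) :
    ((j + 1 : ℕ) : ℝ) * a + i ∈ V.Ω ((j + 1) * n + i) := by
  induction i with
  | zero =>
    induction j with
    | zero => simpa using ha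
    | succ j ih =>
      have h := V.add_mem _ _ _ ih a ha
      have e1 : ((j + 1 + 1 : ℕ) : ℝ) * a + (0 : ℕ) = ((j + 1 : ℕ) : ℝ) * a + (0 : ℕ) + a := by
        push_cast; ring
      have e2 : (j + 1 + 1) * n + 0 = (j + 1) * n + 0 + n := by ring
      rw [e1, e2]
      exact h
  | succ i ih =>
    have h := V.add_mem _ _ _ ih 1 V.one_mem
    have e : ((j + 1 : ℕ) : ℝ) * a + (i + 1 : ℕ) = ((j + 1 : ℕ) : ℝ) * a + i + 1 := by
      push_cast; ring
    rw [e]
    exact h

theorem boundedACC_iff_smallRank : (∀ n, 0 < n → BoundedACC (V.Ω n)) ↔ V.SmallRank := by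
  constructor
  · intro h
    refine ⟨fun t => t + 1, fun _ => 1, tendsto_add_atTop_nat 1, ?_, fun t => ?_⟩
    · have := tendsto_one_div_add_atTop_nhds_zero_nat (𝕜 := ℝ)
      simpa using this
    · exact (boundedACC_iff _).1 (h (t + 1) (Nat.succ_pos t))
  · rintro ⟨d, r, hd, hr, h⟩ n hn
    rw [boundedACC_iff, Set.eq_empty_iff_forall_notMem]
    intro a ha
    obtain ⟨t, j, i, hji, hrt⟩ := PairClass.exists_power hd hr hn one_pos
    rw [mul_one] at hrt
    have hrj : r t < j := by exact_mod_cast hrt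
    obtain ⟨j', rfl⟩ : ∃ j', j = j' + 1 := ⟨j - 1, by omega⟩
    have h1 := V.mem_power ha j' i
    rw [← hji] at h1
    have h2 := derivedLeft_nonempty_of_le hrj.le ⟨_, h1⟩
    rw [h t] at h2
    exact h2.ne_empty rfl

theorem acc_of_almostBounded (h : V.SmallRank) (hb : V.AlmostBounded) :
    ∀ n, 0 < n → ACC (V.Ω n) ∧ ∀ a ∈ V.Ω n, a ≤ n := by
  intro n hn
  have hle : ∀ a ∈ V.Ω n, a ≤ n := by
    intro a ha
    by_contra hlt
    push Not at hlt
    obtain ⟨d, f, hd, hf, hdf⟩ := hb
    have hε : 0 < a - n := by linarith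
    -- use a slightly larger error to have at least one factor
    obtain ⟨t, j, i, hji, hft⟩ := PairClass.exists_power hd
      (f := fun t => max (f t) 0) (by
        have h0 : Tendsto (fun t => max (f t / d t) 0) atTop (𝓝 (max 0 0)) :=
          hf.max tendsto_const_nhds
        rw [max_self] at h0
        refine h0.congr fun t => ?_
        rcases (Nat.cast_nonneg (d t) : (0 : ℝ) ≤ d t).eq_or_lt with h1 | h1
        · rw [← h1]; simp
        · rw [← max_div_div_right h1.le, zero_div]) hn hε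
    have hj : 0 < j := by
      rcases Nat.eq_zero_or_pos j with h1 | h1
      · subst h1
        have := le_max_right (f t) 0
        simp only [Nat.cast_zero, zero_mul] at hft
        linarith
      · exact h1
    obtain ⟨j', rfl⟩ : ∃ j', j = j' + 1 := ⟨j - 1, by omega⟩
    have h1 := V.mem_multiple ha j' i
    rw [← hji] at h1
    have h2 := hdf t _ h1
    have h3 : (d t : ℝ) = ((j' + 1 : ℕ) : ℝ) * n + i := by rw [hji]; push_cast; ring
    have h4 := le_max_left (f t) 0
    rw [h3] at h2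
    linarith
  refine ⟨fun u hu hS => ?_, hle⟩
  exact (V.boundedACC_iff_smallRank.2 h) n hn u hu hS
    ⟨n, by rintro _ ⟨i, rfl⟩; exact hle _ (hS i)⟩

end ValueSets

end Pool.Agent.X308.R
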