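import Mathlib.Topology.Algebra.Order.LiminfLimsup
import Mathlib.Analysis.Real.OfDigits

/-!
# Additive invariants: sublinear bounds imply that they are not positive
-/

set_option autoImplicit false

namespace Pool.Agent.X308.R

open Filter Topology

/-- A class of objects (for instance closed aspherical Riemannian manifolds) with a dimension,
products, a number `s` which is superadditive under products and a number `k` which is at most the
maximum of the numbers of the factors; it contains an object of dimension one with `s ≥ 0`. -/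
structure AdditiveClass (C : Type*) where
  /-- the dimension -/
  dim : C → ℕ
  /-- the product -/
  prod : C → C → C
  /-- the superadditive number -/
  s : C → ℝ
  /-- the scale -/
  k : C → ℝ
  dim_prod : ∀ M N, dim (prod M N) = dim M + dim N
  s_prod : ∀ M N, s M + s N ≤ s (prod M N)
  k_prod : ∀ M N, k (prod M N) ≤ max (k M) (k N)
  line : ∃ E, dim E = 1 ∧ 0 ≤ s E

namespace AdditiveClass

variable {C : Type*} (L : AdditiveClass C)

/-- The number `s` is not positive for objects of positive dimension. -/
def NonPositive : Prop := ∀ M, 0 < L.dim M → L.s M ≤ 0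

/-- In a sequence of dimensions `d t → ∞`, the number `s` is at most `f (d t + c N)` times the
scale, where `f` is sublinear and `c` is nonnegative and subadditive. -/
def SublinearBound : Prop :=
  ∃ c : C → ℝ, (∀ M, 0 ≤ c M) ∧ (∀ M N, c (L.prod M N) ≤ c M + c N) ∧
    ∃ f : ℝ → ℝ, Monotone f ∧ (∀ x, 0 ≤ f x) ∧ Tendsto (fun x => f x / x) atTop (𝓝 0) ∧
      ∃ d : ℕ → ℕ, Tendsto d atTop atTop ∧
        ∀ t N, L.dim N = d t → L.s N ≤ f (d t + c N) * L.k N

/-- The product of `W` with `j` copies of `A`. -/
def mulPow (W A : C) : ℕ → C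
  | 0 => W
  | j + 1 => L.prod (mulPow W A j) A

lemma dim_mulPow (W A : C) (j : ℕ) : L.dim (L.mulPow W A j) = L.dim W + j * L.dim A := by
  induction j with
  | zero => simp [mulPow]
  | succ j ih => rw [mulPow, L.dim_prod, ih]; ring

lemma s_mulPow (W A : C) (j : ℕ) : L.s W + j * L.s A ≤ L.s (L.mulPow W A j) := by
  induction j with
  | zero => simp [mulPow]
  | succ j ih =>
    refine le_trans ?_ (L.s_prod _ _)
    push_cast
    linarith

lemma k_mulPow (W A : C) (j : ℕ) : L.k (L.mulPow W A j) ≤ max (L.k W) (L.k A) := by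
  induction j with
  | zero => simp [mulPow]
  | succ j ih => exact (L.k_prod _ _).trans (max_le ih (le_max_right _ _))

lemma c_mulPow {c : C → ℝ} (hc : ∀ M N, c (L.prod M N) ≤ c M + c N) (W A : C) (j : ℕ) :
    c (L.mulPow W A j) ≤ c W + j * c A := by
  induction j with
  | zero => simp [mulPow]
  | succ j ih =>
    refine (hc _ _).trans ?_
    push_cast
    linarith

theorem nonPositive_iff (hk : ∀ M, 0 ≤ L.k M) : L.NonPositive ↔ L.SublinearBound := by
  constructor
  · intro h
    refine ⟨fun _ => 0, fun _ => le_rfl, fun _ _ => by simp, fun _ => 0, monotone_const,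
      fun _ => le_rfl, by simp, fun t => t + 1, tendsto_add_atTop_nat 1, ?_⟩
    intro t N hN
    rw [zero_mul]
    exact h N (by rw [hN]; positivity)
  · rintro ⟨c, hc0, hc, f, hf, hf0, hlim, d, hd, hb⟩ M hM
    by_contra hs
    push Not at hs
    obtain ⟨E, hE, hsE⟩ := L.line
    set n := L.dim M with hn
    have hnR : (0 : ℝ) < n := by exact_mod_cast hM
    set κ : ℝ := max (max (L.k M) (L.k M)) (L.k E) + 1 with hκ
    have hκ0 : 0 < κ := by
      have := hk E
      have := le_max_right (max (L.k M) (L.k M)) (L.k E)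
      linarith
    set D : ℝ := 1 + c M + c E with hD
    have hD0 : 0 < D := by linarith [hc0 M, hc0 E]
    have hdR : Tendsto (fun t => D * (d t : ℝ)) atTop atTop :=
      (tendsto_natCast_atTop_atTop.comp hd).const_mul_atTop hD0
    have h1 : ∀ᶠ t in atTop, f (D * d t) / (D * d t) < L.s M / (2 * n * κ * D) :=
      (tendsto_order.1 (hlim.comp hdR)).2 _ (by positivity)
    obtain ⟨t, h2, h3⟩ := (h1.and (hd.eventually_ge_atTop n)).exists
    have hdn : (n : ℝ) ≤ d t := by exact_mod_cast h3
    have hd0 : (0 : ℝ) < d t := by linarith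
    obtain ⟨j, i, hji, hj⟩ : ∃ j i : ℕ, d t = n + j * n + i ∧ d t ≤ 2 * ((j + 1) * n) := by
      refine ⟨d t / n - 1, d t % n, ?_, ?_⟩
      · have e1 := Nat.div_add_mod (d t) n
        have e2 : 1 ≤ d t / n := (Nat.one_le_div_iff hM).2 h3
        obtain ⟨w, hw⟩ := Nat.exists_eq_add_of_le e2
        rw [hw] at e1 ⊢
        rw [Nat.add_sub_cancel_left]
        nlinarith
      · have e1 := Nat.div_add_mod (d t) n
        have e2 : 1 ≤ d t / n := (Nat.one_le_div_iff hM).2 h3
        have e3 := Nat.mod_lt (d t) hM
        obtain ⟨w, hw⟩ := Nat.exists_eq_add_of_le e2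
        rw [hw] at e1 ⊢
        rw [Nat.add_sub_cancel_left]
        nlinarith
    set N := L.mulPow (L.mulPow M M j) E i with hN
    have hdim : L.dim N = d t := by
      rw [hN, dim_mulPow, dim_mulPow, hE, ← hn, hji]
      ring
    have hs1 : (j + 1) * L.s M ≤ L.s N := by
      have e1 := L.s_mulPow (L.mulPow M M j) E i
      have e2 := L.s_mulPow M M j
      have e3 : 0 ≤ (i : ℝ) * L.s E := mul_nonneg (Nat.cast_nonneg _) hsE
      linarith
    have hk1 : L.k N ≤ κ := by
      have e1 := L.k_mulPow (L.mulPow M M j) E i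
      have e2 := L.k_mulPow M M j
      have e3 : max (L.k (L.mulPow M M j)) (L.k E) ≤ max (max (L.k M) (L.k M)) (L.k E) :=
        max_le_max e2 le_rfl
      linarith
    have hc1 : (d t : ℝ) + c N ≤ D * d t := by
      have e1 := L.c_mulPow hc (L.mulPow M M j) E i
      have e2 := L.c_mulPow hc M M j
      have e3 : ((j + 1 : ℕ) : ℝ) ≤ d t := by
        have : (j + 1) * 1 ≤ (j + 1) * n := Nat.mul_le_mul_left _ hM
        exact_mod_cast (by nlinarith : j + 1 ≤ d t)
      have e4 : (i : ℝ) ≤ d t := by exact_mod_cast (by omega : i ≤ d t)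
      have e5 : ((j + 1 : ℕ) : ℝ) * c M ≤ d t * c M := mul_le_mul_of_nonneg_right e3 (hc0 M)
      have e6 : (i : ℝ) * c E ≤ d t * c E := mul_le_mul_of_nonneg_right e4 (hc0 E)
      push_cast at e5
      rw [hD]
      linarith
    have h4 := hb t N hdim
    have h5 : f (d t + c N) ≤ f (D * d t) := hf hc1
    have h6 : f (d t + c N) * L.k N ≤ f (D * d t) * κ :=
      mul_le_mul h5 hk1 (hk N) (hf0 _)
    rw [div_lt_iff₀ (by positivity)] at h2
    have h7 : L.s M / (2 * n * κ * D) * (D * d t) * κ = L.s M * d t / (2 * n) := by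
      field_simp
    have h8 : f (D * d t) * κ < L.s M * d t / (2 * n) := by
      rw [← h7]
      exact mul_lt_mul_of_pos_right h2 hκ0
    have h9 : L.s M * d t / (2 * n) ≤ (j + 1) * L.s M := by
      have hjR : (d t : ℝ) ≤ 2 * ((j + 1) * n) := by exact_mod_cast hj
      rw [div_le_iff₀ (by positivity)]
      nlinarith
    linarith

end AdditiveClass

end Pool.Agent.X308.R
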