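import Pool.Agent.X308.R.Main

/-!
# Approximate invariance of Hodge numbers implies invariance: the limit
-/

set_option autoImplicit false

namespace Pool.Agent.X308.R

open Filter Topology Polynomial

namespace HodgeClass

variable {C : Type*} (L : HodgeClass C)

/-- The product of `W` with `k` copies of `A`. -/
def mulPow (W A : C) : ℕ → C
  | 0 => W
  | k + 1 => L.prod (mulPow W A k) A

lemma poly_mulPow (W A : C) (k : ℕ) : L.poly (L.mulPow W A k) = L.poly W * L.poly A ^ k := by
  induction k with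
  | zero => rw [mulPow, pow_zero, mul_one]
  | succ k ih => rw [mulPow, poly_prod, ih, pow_succ, mul_assoc]

lemma dim_mulPow (W A : C) (k : ℕ) : L.dim (L.mulPow W A k) = L.dim W + k * L.dim A := by
  induction k with
  | zero => simp [mulPow]
  | succ k ih => rw [mulPow, L.dim_prod, ih]; ring

lemma rel_mulPow {W W' A A' : C} (h : L.rel W W') (h' : L.rel A A') (k : ℕ) :
    L.rel (L.mulPow W A k) (L.mulPow W' A' k) := by
  induction k with
  | zero => exact h
  | succ k ih => exact L.rel_prod _ _ _ _ ih h'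

/-- The Hodge numbers are invariant. -/
def Invariant : Prop := ∀ X Y, L.rel X Y → ∀ p q, L.h X p q = L.h Y p q

/-- In a sequence of dimensions `d t → ∞`, the Hodge numbers are invariant up to a factor
`exp (o (d t))` and a shift of the degrees of size `o (d t)`. -/
def ApproximatelyInvariant : Prop :=
  ∃ (d : ℕ → ℕ) (K : ℕ → ℝ) (r : ℕ → ℕ), Tendsto d atTop atTop ∧ (∀ t, 1 ≤ K t) ∧
    Tendsto (fun t => Real.log (K t) / d t) atTop (𝓝 0) ∧
    Tendsto (fun t => (r t : ℝ) / d t) atTop (𝓝 0) ∧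
    ∀ t X Y, L.dim X = d t → L.rel X Y → L.Near (K t) (r t) X Y

lemma tendsto_log_succ_div {d : ℕ → ℕ} (hd : Tendsto d atTop atTop) :
    Tendsto (fun t => Real.log ((d t : ℝ) + 1) / d t) atTop (𝓝 0) := by
  have h1 : Tendsto (fun t => (d t : ℝ) + 1) atTop atTop :=
    tendsto_atTop_add_const_right _ _ (tendsto_natCast_atTop_atTop.comp hd)
  have h2 := (Real.isLittleO_log_id_atTop.comp_tendsto h1).tendsto_div_nhds_zero
  have h3 : Tendsto (fun t => 2 * (Real.log ((d t : ℝ) + 1) / ((d t : ℝ) + 1))) atTop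
      (𝓝 (2 * 0)) := h2.const_mul 2
  rw [mul_zero] at h3
  refine squeeze_zero' (Eventually.of_forall fun t => ?_) ?_ h3
  · exact div_nonneg (Real.log_nonneg (by linarith [(Nat.cast_nonneg (d t) : (0 : ℝ) ≤ d t)]))
      (Nat.cast_nonneg _)
  · filter_upwards [hd.eventually_ge_atTop 1] with t ht
    have h4 : (1 : ℝ) ≤ d t := by exact_mod_cast ht
    have h5 : 0 ≤ Real.log ((d t : ℝ) + 1) := Real.log_nonneg (by linarith)
    rw [← mul_div_assoc, div_le_div_iff₀ (by linarith) (by linarith)]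
    nlinarith

theorem ev_le (h : L.ApproximatelyInvariant) {X Y : C} (hXY : L.rel X Y) (hn : 0 < L.dim X)
    {x y : ℝ} (hx : 0 < x) (hy : 0 < y) : ev x y (L.poly X) ≤ ev x y (L.poly Y) := by
  obtain ⟨d, K, r, hd, hK1, hK, hr, hnear⟩ := h
  obtain ⟨Z, hZ⟩ := L.curve
  set n := L.dim X with hn'
  set a := ev x y (L.poly X) with ha
  set b := ev x y (L.poly Y) with hb
  have ha0 : 0 < a := L.ev_pos hx hy X
  have hb0 : 0 < b := L.ev_pos hx hy Y
  have hz0 : 0 < ev x y (L.poly Z) := L.ev_pos hx hy Z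
  by_contra hab
  push Not at hab
  have hL : 0 < Real.log (a / b) := Real.log_pos ((one_lt_div hb0).2 hab)
  have hnR : (0 : ℝ) < n := by exact_mod_cast hn
  -- the number `m`
  set m : ℝ := max (max x x⁻¹) (max (max y y⁻¹) 1) with hm
  have hm1 : 1 ≤ m := (le_max_right _ _).trans (le_max_right _ _)
  have hxm : x ≤ m := (le_max_left _ _).trans (le_max_left _ _)
  have hxm' : x⁻¹ ≤ m := (le_max_right _ _).trans (le_max_left _ _)
  have hym : y ≤ m := (le_max_left _ _).trans ((le_max_left _ _).trans (le_max_right _ _))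
  have hym' : y⁻¹ ≤ m := (le_max_right _ _).trans ((le_max_left _ _).trans (le_max_right _ _))
  have hm0 : 0 < m := lt_of_lt_of_le one_pos hm1
  have hlm : 0 ≤ Real.log m := Real.log_nonneg hm1
  -- the limit
  have hlim : Tendsto (fun t => 2 * (Real.log ((d t : ℝ) + 1) / d t) + (Real.log (K t) / d t) +
      2 * Real.log m * ((r t : ℝ) / d t)) atTop (𝓝 0) := by
    have := (((tendsto_log_succ_div hd).const_mul 2).add hK).add (hr.const_mul (2 * Real.log m))
    simpa using this
  have h1 : ∀ᶠ t in atTop, 2 * (Real.log ((d t : ℝ) + 1) / d t) + (Real.log (K t) / d t) +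
      2 * Real.log m * ((r t : ℝ) / d t) < Real.log (a / b) / (2 * n) :=
    (tendsto_order.1 hlim).2 _ (by positivity)
  obtain ⟨t, h2, h3⟩ := (h1.and (hd.eventually_ge_atTop n)).exists
  have hdR : (n : ℝ) ≤ d t := by exact_mod_cast h3
  have hd0 : (0 : ℝ) < d t := by linarith
  -- the powers
  obtain ⟨k, c, hkc, hk⟩ : ∃ k c : ℕ, d t = n + k * n + c ∧ d t ≤ 2 * ((k + 1) * n) := by
    refine ⟨d t / n - 1, d t % n, ?_, ?_⟩
    · have e1 := Nat.div_add_mod (d t) n
      have e2 : 1 ≤ d t / n := (Nat.one_le_div_iff hn).2 h3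
      obtain ⟨w, hw⟩ := Nat.exists_eq_add_of_le e2
      rw [hw] at e1 ⊢
      rw [Nat.add_sub_cancel_left]
      nlinarith
    · have e1 := Nat.div_add_mod (d t) n
      have e2 : 1 ≤ d t / n := (Nat.one_le_div_iff hn).2 h3
      have e3 := Nat.mod_lt (d t) hn
      obtain ⟨w, hw⟩ := Nat.exists_eq_add_of_le e2
      rw [hw] at e1 ⊢
      rw [Nat.add_sub_cancel_left]
      nlinarith
  have hdim : L.dim (L.mulPow (L.mulPow X X k) Z c) = d t := by
    rw [dim_mulPow, dim_mulPow, hZ, ← hn', hkc]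
    ring
  have hrel : L.rel (L.mulPow (L.mulPow X X k) Z c) (L.mulPow (L.mulPow Y Y k) Z c) :=
    L.rel_mulPow (L.rel_mulPow hXY hXY k) (L.rel_refl Z) c
  have h4 := L.ev_le_of_near hx hy hxm hxm' hym hym' hm1 (by linarith [hK1 t])
    (hnear t _ _ hdim hrel)
  rw [hdim, poly_mulPow, poly_mulPow, poly_mulPow, poly_mulPow, map_mul, map_mul, map_mul, map_mul,
    map_pow, map_pow, map_pow, ← ha, ← hb, ← pow_succ', ← pow_succ', ← mul_assoc] at h4
  have h5 : a ^ (k + 1) ≤ ((d t : ℝ) + 1) ^ 2 * (K t * (m ^ r t) ^ 2) * b ^ (k + 1) :=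
    le_of_mul_le_mul_right h4 (pow_pos hz0 c)
  have hK0 : 0 < K t := by linarith [hK1 t]
  have h6 : (a / b) ^ (k + 1) ≤ ((d t : ℝ) + 1) ^ 2 * (K t * (m ^ r t) ^ 2) := by
    rw [div_pow, div_le_iff₀ (pow_pos hb0 _)]
    exact h5
  have h7 := Real.log_le_log (pow_pos (div_pos ha0 hb0) _) h6
  rw [Real.log_pow, Real.log_mul (by positivity) (by positivity), Real.log_pow,
    Real.log_mul hK0.ne' (by positivity), Real.log_pow, Real.log_pow] at h7
  push_cast at h7
  -- the comparison
  have h8 : (2 * (Real.log ((d t : ℝ) + 1) / d t) + (Real.log (K t) / d t) +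
      2 * Real.log m * ((r t : ℝ) / d t)) * d t =
      2 * Real.log ((d t : ℝ) + 1) + (Real.log (K t) + 2 * (r t * Real.log m)) := by
    field_simp
    ring
  have h9 : 2 * Real.log ((d t : ℝ) + 1) + (Real.log (K t) + 2 * (r t * Real.log m)) <
      Real.log (a / b) / (2 * n) * d t := by
    rw [← h8]
    exact mul_lt_mul_of_pos_right h2 hd0
  have h10 : Real.log (a / b) / (2 * n) * d t ≤ (k + 1) * Real.log (a / b) := by
    have hkR : (d t : ℝ) ≤ 2 * ((k + 1) * n) := by exact_mod_cast hk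
    rw [div_mul_eq_mul_div, div_le_iff₀ (by positivity)]
    nlinarith
  linarith

theorem invariant_iff : L.Invariant ↔ L.ApproximatelyInvariant := by
  constructor
  · intro h
    refine ⟨fun t => t, fun _ => 1, fun _ => 0, tendsto_id, fun _ => le_rfl, by simp, by simp, ?_⟩
    intro t X Y _ hXY p q
    exact ⟨p, q, by omega, by omega, by omega, by omega, by rw [h X Y hXY]; simp⟩
  · intro h X Y hXY p q
    obtain ⟨Z, hZ⟩ := L.curve
    -- multiply with the curve to have positive dimension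
    have hrel : L.rel (L.prod X Z) (L.prod Y Z) := L.rel_prod _ _ _ _ hXY (L.rel_refl Z)
    have h1 : L.poly (L.prod X Z) = L.poly (L.prod Y Z) := by
      refine eq_of_ev fun x y hx hy => le_antisymm ?_ ?_
      · exact L.ev_le h hrel (by rw [L.dim_prod, hZ]; omega) hx hy
      · exact L.ev_le h (L.rel_symm _ _ hrel) (by rw [L.dim_prod, hZ]; omega) hx hy
    rw [poly_prod, poly_prod] at h1
    have hZ0 : L.poly Z ≠ 0 := by
      intro h0
      have := L.ev_pos one_pos one_pos Z
      rw [h0, map_zero] at this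
      exact lt_irrefl _ this
    have h2 := mul_right_cancel₀ hZ0 h1
    have h3 := L.coeff_poly X p q
    rw [h2, L.coeff_poly] at h3
    exact_mod_cast h3.symm

end HodgeClass

end Pool.Agent.X308.R
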