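import Mathlib.Algebra.Polynomial.Roots
import Mathlib.Algebra.Polynomial.Eval.Coeff
import Mathlib.Analysis.SpecialFunctions.Log.Basic
import Mathlib.Analysis.SpecialFunctions.Pow.Asymptotics
import Mathlib.Topology.Algebra.Order.LiminfLimsup
import Mathlib.Data.Finset.NatAntidiagonal

/-!
# Approximate invariance of Hodge numbers implies invariance
-/

set_option autoImplicit false

namespace Pool.Agent.X308.R

open Filter Topology Polynomial

/-- Smooth projective varieties with their dimension, products, Hodge numbers `h X p q` and an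
equivalence relation compatible with products (derived equivalence). -/
structure HodgeClass (C : Type*) where
  /-- the dimension -/
  dim : C → ℕ
  /-- the product -/
  prod : C → C → C
  /-- the Hodge numbers -/
  h : C → ℕ → ℕ → ℕ
  /-- the relation -/
  rel : C → C → Prop
  dim_prod : ∀ X Y, dim (prod X Y) = dim X + dim Y
  h_zero : ∀ X p q, dim X < p ∨ dim X < q → h X p q = 0
  kunneth : ∀ X Y p q, h (prod X Y) p q =
    ∑ a ∈ Finset.antidiagonal p, ∑ b ∈ Finset.antidiagonal q, h X a.1 b.1 * h Y a.2 b.2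
  rel_refl : ∀ X, rel X X
  rel_symm : ∀ X Y, rel X Y → rel Y X
  rel_dim : ∀ X Y, rel X Y → dim X = dim Y
  rel_prod : ∀ X Y X' Y', rel X Y → rel X' Y' → rel (prod X X') (prod Y Y')
  /-- there is a curve -/
  curve : ∃ Z, dim Z = 1
  /-- varieties are nonempty -/
  h_pos : ∀ X, 0 < h X 0 0

namespace HodgeClass

variable {C : Type*} (L : HodgeClass C)

/-- The Hodge polynomial. -/
noncomputable def poly (X : C) : ℝ[X][X] :=
  ∑ p ∈ Finset.range (L.dim X + 1), monomial p
    (∑ q ∈ Finset.range (L.dim X + 1), monomial q (L.h X p q : ℝ))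

lemma coeff_poly (X : C) (p q : ℕ) : ((L.poly X).coeff p).coeff q = L.h X p q := by
  rw [poly, finset_sum_coeff]
  simp only [coeff_monomial]
  by_cases hp : p ∈ Finset.range (L.dim X + 1)
  · rw [Finset.sum_ite_eq' (Finset.range (L.dim X + 1)) p, if_pos hp, finset_sum_coeff]
    simp only [coeff_monomial]
    by_cases hq : q ∈ Finset.range (L.dim X + 1)
    · rw [Finset.sum_ite_eq' (Finset.range (L.dim X + 1)) q, if_pos hq]
    · rw [Finset.sum_ite_eq' (Finset.range (L.dim X + 1)) q, if_neg hq]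
      rw [Finset.mem_range] at hq
      rw [L.h_zero X p q (Or.inr (by omega))]
      simp
  · rw [Finset.sum_ite_eq' (Finset.range (L.dim X + 1)) p, if_neg hp]
    rw [Finset.mem_range] at hp
    rw [L.h_zero X p q (Or.inl (by omega))]
    simp

lemma poly_prod (X Y : C) : L.poly (L.prod X Y) = L.poly X * L.poly Y := by
  ext p q
  rw [coeff_poly, coeff_mul, finset_sum_coeff, L.kunneth]
  push_cast
  refine Finset.sum_congr rfl fun a _ => ?_
  rw [coeff_mul]
  refine Finset.sum_congr rfl fun b _ => ?_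
  rw [coeff_poly, coeff_poly]

/-- Evaluation. -/
noncomputable def ev (x y : ℝ) : ℝ[X][X] →+* ℝ :=
  (evalRingHom x).comp (mapRingHom (evalRingHom y))

lemma ev_poly (x y : ℝ) (X : C) : ev x y (L.poly X) =
    ∑ p ∈ Finset.range (L.dim X + 1), ∑ q ∈ Finset.range (L.dim X + 1),
      (L.h X p q : ℝ) * y ^ q * x ^ p := by
  rw [poly, map_sum]
  refine Finset.sum_congr rfl fun p _ => ?_
  rw [ev, RingHom.comp_apply, coe_mapRingHom, map_monomial, coe_evalRingHom, eval_monomial,
    coe_evalRingHom, eval_finset_sum, Finset.sum_mul]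
  refine Finset.sum_congr rfl fun q _ => ?_
  rw [eval_monomial]

lemma eq_of_ev {P Q : ℝ[X][X]} (h : ∀ x y : ℝ, 0 < x → 0 < y → ev x y P = ev x y Q) : P = Q := by
  have hinf : (Set.Ioi (0 : ℝ)).Infinite := Set.Ioi_infinite 0
  have h1 : ∀ y : ℝ, 0 < y → P.map (evalRingHom y) = Q.map (evalRingHom y) := by
    intro y hy
    refine eq_of_infinite_eval_eq _ _ (hinf.mono fun x hx => ?_)
    exact h x y hx hy
  ext1 p
  refine eq_of_infinite_eval_eq _ _ (hinf.mono fun y hy => ?_)
  have h2 := congrArg (fun R : ℝ[X] => R.coeff p) (h1 y hy)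
  simp only [coeff_map] at h2
  exact h2

lemma ev_pos {x y : ℝ} (hx : 0 < x) (hy : 0 < y) (X : C) : 0 < ev x y (L.poly X) := by
  rw [ev_poly]
  refine Finset.sum_pos' (fun p _ => Finset.sum_nonneg fun q _ => by positivity) ?_
  refine ⟨0, by simp, Finset.sum_pos' (fun q _ => by positivity) ⟨0, by simp, ?_⟩⟩
  have := L.h_pos X
  have h1 : (0 : ℝ) < L.h X 0 0 := by exact_mod_cast this
  positivity

lemma term_le {x y : ℝ} (hx : 0 < x) (hy : 0 < y) (X : C) (p q : ℕ) :
    (L.h X p q : ℝ) * y ^ q * x ^ p ≤ ev x y (L.poly X) := by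
  by_cases hpq : L.dim X < p ∨ L.dim X < q
  · rw [L.h_zero X p q hpq]
    simpa using (L.ev_pos hx hy X).le
  · push Not at hpq
    rw [ev_poly]
    refine le_trans ?_ (Finset.single_le_sum
      (f := fun p => ∑ q ∈ Finset.range (L.dim X + 1), (L.h X p q : ℝ) * y ^ q * x ^ p)
      (fun p _ => Finset.sum_nonneg fun q _ => by positivity)
      (Finset.mem_range.2 (by omega : p < L.dim X + 1)))
    exact Finset.single_le_sum (f := fun q => (L.h X p q : ℝ) * y ^ q * x ^ p)
      (fun q _ => by positivity) (Finset.mem_range.2 (by omega : q < L.dim X + 1))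

/-- Every Hodge number of `X` is at most `K` times a Hodge number of `Y` whose degrees differ by
at most `r`. -/
def Near (K : ℝ) (r : ℕ) (X Y : C) : Prop :=
  ∀ p q, ∃ p' q', p ≤ p' + r ∧ p' ≤ p + r ∧ q ≤ q' + r ∧ q' ≤ q + r ∧
    (L.h X p q : ℝ) ≤ K * L.h Y p' q'

lemma pow_near {x m : ℝ} (hx : 0 < x) (hxm : x ≤ m) (hxm' : x⁻¹ ≤ m) (hm : 1 ≤ m) {p p' r : ℕ}
    (h1 : p ≤ p' + r) (h2 : p' ≤ p + r) : x ^ p ≤ m ^ r * x ^ p' := by
  have hm0 : 0 < m := lt_of_lt_of_le one_pos hm
  rcases le_total p' p with h | h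
  · obtain ⟨s, rfl⟩ := Nat.exists_eq_add_of_le h
    have hs : s ≤ r := by omega
    rw [pow_add, mul_comm]
    refine mul_le_mul_of_nonneg_right ?_ (by positivity)
    exact (pow_le_pow_left₀ hx.le hxm s).trans (pow_le_pow_right₀ hm hs)
  · obtain ⟨s, rfl⟩ := Nat.exists_eq_add_of_le h
    have hs : s ≤ r := by omega
    have h3 : 1 ≤ m ^ r * x ^ s := by
      have h4 : x⁻¹ ^ s ≤ m ^ r :=
        (pow_le_pow_left₀ (by positivity) hxm' s).trans (pow_le_pow_right₀ hm hs)
      calc (1 : ℝ) = x⁻¹ ^ s * x ^ s := by rw [← mul_pow, inv_mul_cancel₀ hx.ne', one_pow]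
        _ ≤ m ^ r * x ^ s := mul_le_mul_of_nonneg_right h4 (by positivity)
    calc x ^ p = 1 * x ^ p := (one_mul _).symm
      _ ≤ m ^ r * x ^ s * x ^ p := mul_le_mul_of_nonneg_right h3 (by positivity)
      _ = m ^ r * x ^ (p + s) := by rw [pow_add]; ring

lemma ev_le_of_near {x y m : ℝ} (hx : 0 < x) (hy : 0 < y) (hxm : x ≤ m) (hxm' : x⁻¹ ≤ m)
    (hym : y ≤ m) (hym' : y⁻¹ ≤ m) (hm : 1 ≤ m) {K : ℝ} (hK : 0 ≤ K) {r : ℕ} {X Y : C}
    (h : L.Near K r X Y) : ev x y (L.poly X) ≤
      (L.dim X + 1 : ℝ) ^ 2 * (K * (m ^ r) ^ 2) * ev x y (L.poly Y) := by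
  have hm0 : 0 < m := lt_of_lt_of_le one_pos hm
  have key : ∀ p q, (L.h X p q : ℝ) * y ^ q * x ^ p ≤ K * (m ^ r) ^ 2 * ev x y (L.poly Y) := by
    intro p q
    obtain ⟨p', q', h1, h2, h3, h4, h5⟩ := h p q
    have h6 := pow_near hx hxm hxm' hm h1 h2
    have h7 := pow_near hy hym hym' hm h3 h4
    calc (L.h X p q : ℝ) * y ^ q * x ^ p
        ≤ (K * L.h Y p' q') * (m ^ r * y ^ q') * (m ^ r * x ^ p') := by gcongr
      _ = K * (m ^ r) ^ 2 * ((L.h Y p' q' : ℝ) * y ^ q' * x ^ p') := by ring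
      _ ≤ K * (m ^ r) ^ 2 * ev x y (L.poly Y) :=
          mul_le_mul_of_nonneg_left (L.term_le hx hy Y p' q') (by positivity)
  rw [L.ev_poly x y X]
  calc _ ≤ ∑ p ∈ Finset.range (L.dim X + 1), ∑ q ∈ Finset.range (L.dim X + 1),
        K * (m ^ r) ^ 2 * ev x y (L.poly Y) :=
        Finset.sum_le_sum fun p _ => Finset.sum_le_sum fun q _ => key p q
    _ = _ := by
        simp only [Finset.sum_const, Finset.card_range, nsmul_eq_mul]
        push_cast
        ring

end HodgeClass

end Pool.Agent.X308.R
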