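import Mathlib.Topology.Algebra.Order.LiminfLimsup
import Mathlib.Topology.Semicontinuity.Basic
import Mathlib.Analysis.Real.OfDigits

/-!
# Lower semicontinuity of minimal log discrepancies up to a sublinear error
-/

set_option autoImplicit false

namespace Pool.Agent.X308.R

open Filter Topology

/-- Log canonical pairs with their spaces of closed points and minimal log discrepancies, and the
pairs `pow X j i = X ^ j × 𝔸 ^ i` with the maps `emb : x ↦ (x, …, x, 0)`. -/
structure PairClass (C : Type*) where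
  /-- the dimension -/
  dim : C → ℕ
  /-- the set of closed points -/
  pt : C → Type
  /-- the Zariski topology -/
  top : ∀ X, TopologicalSpace (pt X)
  /-- the minimal log discrepancy -/
  mld : ∀ X, pt X → ℝ
  finite : ∀ X, (Set.range (mld X)).Finite
  /-- the pair `X ^ j × 𝔸 ^ i` -/
  pow : C → ℕ → ℕ → C
  dim_pow : ∀ X j i, dim (pow X j i) = j * dim X + i
  /-- the map `x ↦ (x, …, x, 0)` -/
  emb : ∀ X j i, pt X → pt (pow X j i)
  emb_continuous : ∀ X j i, @Continuous _ _ (top X) (top (pow X j i)) (emb X j i)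
  mld_emb : ∀ X j i x, mld (pow X j i) (emb X j i x) = j * mld X x + i

namespace PairClass

variable {C : Type*} (L : PairClass C)

/-- All minimal log discrepancies are lower semicontinuous functions. -/
def Semicontinuous : Prop :=
  ∀ X, @LowerSemicontinuous _ _ (L.top X) _ (L.mld X)

/-- In a sequence of dimensions `d t → ∞`, every point has a neighbourhood in which the minimal
log discrepancies are at least that of the point minus `f t`, with `f t / d t → 0`. -/
def AlmostSemicontinuous : Prop :=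
  ∃ (d : ℕ → ℕ) (f : ℕ → ℝ), Tendsto d atTop atTop ∧
    Tendsto (fun t => f t / d t) atTop (𝓝 0) ∧
      ∀ t X, L.dim X = d t → ∀ x : L.pt X, ∃ U : Set (L.pt X), @IsOpen _ (L.top X) U ∧ x ∈ U ∧
        ∀ y ∈ U, L.mld X x ≤ L.mld X y + f t

/-- All minimal log discrepancies at closed points are at most the dimension. -/
def Bounded : Prop := ∀ X (x : L.pt X), 0 < L.dim X → L.mld X x ≤ L.dim X

/-- In a sequence of dimensions `d t → ∞`, all minimal log discrepancies at closed points are at
most `d t + f t`, with `f t / d t → 0`. -/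
def AlmostBounded : Prop :=
  ∃ (d : ℕ → ℕ) (f : ℕ → ℝ), Tendsto d atTop atTop ∧
    Tendsto (fun t => f t / d t) atTop (𝓝 0) ∧
      ∀ t X, L.dim X = d t → ∀ x : L.pt X, L.mld X x ≤ d t + f t

/-- The exponents: `d t = j * n + i` with `j` of the size of `d t`. -/
lemma exists_power {d : ℕ → ℕ} (hd : Tendsto d atTop atTop) {f : ℕ → ℝ}
    (hf : Tendsto (fun t => f t / d t) atTop (𝓝 0)) {n : ℕ} (hn : 0 < n) {ε : ℝ} (hε : 0 < ε) :
    ∃ t j i : ℕ, d t = j * n + i ∧ f t < j * ε := by
  have hnR : (0 : ℝ) < n := by exact_mod_cast hn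
  have h1 : ∀ᶠ t in atTop, f t / d t < ε / (2 * n) :=
    (tendsto_order.1 hf).2 _ (by positivity)
  obtain ⟨t, h2, h3⟩ := (h1.and (hd.eventually_ge_atTop n)).exists
  have hdn : (n : ℝ) ≤ d t := by exact_mod_cast h3
  have hd0 : (0 : ℝ) < d t := by linarith
  refine ⟨t, d t / n, d t % n, ?_, ?_⟩
  · have e1 := Nat.div_add_mod (d t) n
    rw [mul_comm] at e1
    exact e1.symm
  · have e1 := Nat.div_add_mod (d t) n
    have e2 : 1 ≤ d t / n := (Nat.one_le_div_iff hn).2 h3
    have e3 := Nat.mod_lt (d t) hn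
    have e4 : d t ≤ 2 * (d t / n * n) := by nlinarith
    have e5 : (d t : ℝ) ≤ 2 * ((d t / n : ℕ) * n) := by exact_mod_cast e4
    rw [div_lt_iff₀ hd0] at h2
    have e6 : ε / (2 * n) * d t ≤ (d t / n : ℕ) * ε := by
      rw [div_mul_eq_mul_div, div_le_iff₀ (by positivity)]
      nlinarith
    linarith

theorem semicontinuous_iff (h0 : ∀ X, L.dim X = 0 → @LowerSemicontinuous _ _ (L.top X) _ (L.mld X)) :
    L.Semicontinuous ↔ L.AlmostSemicontinuous := by
  constructor
  · intro h
    refine ⟨fun t => t, fun _ => 0, tendsto_id, by simp, ?_⟩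
    intro t X _ x
    let _ := L.top X
    -- the values below the value at `x` have a maximum
    have h1 := h X
    by_cases hne : ∃ y, L.mld X y < L.mld X x
    · have hfin : (Set.range (L.mld X) ∩ Set.Iio (L.mld X x)).Finite := (L.finite X).inter_of_left _
      have hnon : (Set.range (L.mld X) ∩ Set.Iio (L.mld X x)).Nonempty := by
        obtain ⟨y, hy⟩ := hne
        exact ⟨L.mld X y, ⟨y, rfl⟩, hy⟩
      obtain ⟨a, ⟨-, ha⟩, hmax⟩ := Set.exists_max_image _ id hfin hnon
      obtain ⟨U, hU, hUo, hxU⟩ := mem_nhds_iff.1 (h1 x a ha)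
      refine ⟨U, hUo, hxU, fun y hy => ?_⟩
      rw [add_zero]
      by_contra hlt
      push Not at hlt
      have h2 : a < L.mld X y := hU hy
      have h3 : L.mld X y ≤ a := hmax _ ⟨⟨y, rfl⟩, hlt⟩
      exact absurd h2 (not_lt.2 h3)
    · push Not at hne
      exact ⟨Set.univ, isOpen_univ, trivial, fun y _ => by rw [add_zero]; exact hne y⟩
  · rintro ⟨d, f, hd, hf, h⟩ X
    rcases Nat.eq_zero_or_pos (L.dim X) with hn | hn
    · exact h0 X hn
    let _ := L.top X
    intro x a ha
    -- the gap
    obtain ⟨ε, hε, hgap⟩ : ∃ ε : ℝ, 0 < ε ∧ ∀ y, L.mld X y ≤ a → L.mld X y ≤ L.mld X x - ε :=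
      ⟨L.mld X x - a, by linarith, fun y hy => by linarith⟩
    obtain ⟨t, j, i, hji, hft⟩ := exists_power hd hf hn hε
    obtain ⟨U, hUo, hxU, hU⟩ := h t (L.pow X j i) (by rw [L.dim_pow, hji]) (L.emb X j i x)
    have hpre : IsOpen (L.emb X j i ⁻¹' U) := @IsOpen.preimage _ _ (L.top X) (L.top (L.pow X j i))
      _ (L.emb_continuous X j i) _ hUo
    refine Filter.mem_of_superset (hpre.mem_nhds hxU) fun y hy => ?_
    have h1 := hU _ hy
    rw [L.mld_emb, L.mld_emb] at h1
    change a < L.mld X y
    by_contra hle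
    push Not at hle
    have h2 := hgap y hle
    have h3 : (j : ℝ) * L.mld X y ≤ j * (L.mld X x - ε) :=
      mul_le_mul_of_nonneg_left h2 (Nat.cast_nonneg j)
    linarith

theorem bounded_iff : L.Bounded ↔ L.AlmostBounded := by
  constructor
  · intro h
    refine ⟨fun t => t + 1, fun _ => 0, tendsto_add_atTop_nat 1, by simp, ?_⟩
    intro t X hX x
    have := h X x (by rw [hX]; positivity)
    rw [hX] at this
    rw [add_zero]
    exact this
  · rintro ⟨d, f, hd, hf, h⟩ X x hn
    by_contra hlt
    push Not at hlt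
    have hε : 0 < L.mld X x - L.dim X := by linarith
    obtain ⟨t, j, i, hji, hft⟩ := exists_power hd hf hn hε
    have h1 := h t (L.pow X j i) (by rw [L.dim_pow, hji]) (L.emb X j i x)
    rw [L.mld_emb] at h1
    have h2 : (d t : ℝ) = j * L.dim X + i := by rw [hji]; push_cast; ring
    rw [h2] at h1
    linarith

end PairClass

end Pool.Agent.X308.R
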