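import Pool.Agent.X308.R.Mld
import Mathlib.GroupTheory.OrderOfElement
import Mathlib.SetTheory.Cardinal.Finite
import Mathlib.Data.Fintype.BigOperators

/-!
# Uniform boundedness of torsion from a bound for the rank of multiples of the torsion
-/

set_option autoImplicit false

namespace Pool.Agent.X308.R

open Filter Topology

/-- Principally polarized abelian varieties over a number field with their (finite) torsion groups,
and the products `pow A j i = A ^ j × E ^ i` with an elliptic curve `E`. -/
structure TorsionClass (C : Type*) where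
  /-- the dimension -/
  dim : C → ℕ
  /-- the group of rational torsion points -/
  tors : C → Type
  group : ∀ A, AddCommGroup (tors A)
  finite : ∀ A, Finite (tors A)
  /-- the abelian variety `A ^ j × E ^ i` -/
  pow : C → ℕ → ℕ → C
  dim_pow : ∀ A j i, dim (pow A j i) = j * dim A + i
  /-- the inclusion of the torsion of `A ^ j` -/
  emb : ∀ A j i, (Fin j → tors A) →+ tors (pow A j i)
  emb_injective : ∀ A j i, Function.Injective (emb A j i)

attribute [instance] TorsionClass.group TorsionClass.finite

namespace TorsionClass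

variable {C : Type*} (L : TorsionClass C)

/-- The torsion points on abelian varieties of dimension `g > 0` have bounded order. -/
def Bounded : Prop :=
  ∀ g : ℕ, 0 < g → ∃ B : ℕ, ∀ A, L.dim A = g → ∀ x : L.tors A, addOrderOf x < B

/-- In a sequence of dimensions `g t → ∞`, for some `m t ≥ 1` the group `m t • A(K)_tors` has at
most `p ^ r t` elements killed by `p`, for all primes `p`, where `r t = o (g t)`. -/
def SmallRank : Prop :=
  ∃ g m r : ℕ → ℕ, Tendsto g atTop atTop ∧ (∀ t, 0 < m t) ∧
    Tendsto (fun t => (r t : ℝ) / g t) atTop (𝓝 0) ∧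
      ∀ t A, L.dim A = g t → ∀ p : ℕ, p.Prime →
        Nat.card {x : L.tors A // p • x = 0 ∧ ∃ y, x = m t • y} ≤ p ^ r t

theorem bounded_iff : L.Bounded ↔ L.SmallRank := by
  constructor
  · intro h
    choose B hB using h
    refine ⟨fun t => t + 1, fun t => (B (t + 1) (Nat.succ_pos t)).factorial, fun _ => 0,
      tendsto_add_atTop_nat 1, fun t => Nat.factorial_pos _, by simp, ?_⟩
    intro t A hA p hp
    have h1 : ∀ x : {x : L.tors A // p • x = 0 ∧
        ∃ y, x = (B (t + 1) (Nat.succ_pos t)).factorial • y}, x.1 = 0 := by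
      rintro ⟨x, -, y, rfl⟩
      have h2 := hB (t + 1) (Nat.succ_pos t) A hA y
      have h3 : addOrderOf y ∣ (B (t + 1) (Nat.succ_pos t)).factorial :=
        Nat.dvd_factorial (addOrderOf_pos y) h2.le
      exact addOrderOf_dvd_iff_nsmul_eq_zero.1 h3
    have : Subsingleton {x : L.tors A // p • x = 0 ∧
        ∃ y, x = (B (t + 1) (Nat.succ_pos t)).factorial • y} :=
      ⟨fun x y => Subtype.ext ((h1 x).trans (h1 y).symm)⟩
    rw [pow_zero]
    exact Finite.card_le_one_iff_subsingleton.2 this
  · rintro ⟨g, m, r, hg, hm, hr, h⟩ n hn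
    obtain ⟨t, j, i, hji, hrt⟩ := PairClass.exists_power hg hr hn one_pos
    rw [mul_one] at hrt
    have hrj : r t < j := by exact_mod_cast hrt
    refine ⟨m t + 1, fun A hA x => ?_⟩
    by_contra hlt
    push Not at hlt
    have hy : m t • x ≠ 0 := by
      intro h0
      have := Nat.le_of_dvd (hm t) (addOrderOf_dvd_iff_nsmul_eq_zero.2 h0)
      omega
    have hN : addOrderOf (m t • x) ≠ 1 := fun h1 => hy (AddMonoid.addOrderOf_eq_one_iff.1 h1)
    obtain ⟨p, hp, hpN⟩ := Nat.exists_prime_and_dvd hN
    obtain ⟨q, hq⟩ := hpN
    have hq0 : 0 < q := by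
      rcases Nat.eq_zero_or_pos q with h1 | h1
      · rw [h1, mul_zero] at hq
        exact absurd hq (addOrderOf_pos _).ne'
      · exact h1
    set z : L.tors A := q • (m t • x) with hz
    have hzp : p • z = 0 := by
      rw [hz, ← mul_smul, ← hq]
      exact addOrderOf_nsmul_eq_zero _
    have hzo : addOrderOf z = p := by
      have h1 : addOrderOf z = addOrderOf (m t • x) / q := by
        rw [hz]
        exact addOrderOf_nsmul_of_dvd hq0.ne' ⟨p, by rw [hq, mul_comm]⟩
      rw [h1, hq, Nat.mul_div_cancel _ hq0]
    -- the elements of the power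
    have hcard := h t (L.pow A j i) (by rw [L.dim_pow, hA, hji]) p hp
    let F : (Fin j → Fin p) → {x : L.tors (L.pow A j i) // p • x = 0 ∧ ∃ y, x = m t • y} :=
      fun c => ⟨L.emb A j i fun k => (c k : ℕ) • z, by
        rw [← map_nsmul]
        have : (p • fun k => (c k : ℕ) • z) = (0 : Fin j → L.tors A) := by
          funext k
          change p • ((c k : ℕ) • z) = 0
          rw [smul_comm, hzp, smul_zero]
        rw [this, map_zero], ⟨L.emb A j i fun k => (c k : ℕ) • (q • x), by
        rw [← map_nsmul]
        congr 1
        funext k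
        change (c k : ℕ) • z = m t • ((c k : ℕ) • (q • x))
        rw [hz, smul_comm (m t) (c k : ℕ), smul_comm (m t) q]⟩⟩
    have hF : Function.Injective F := by
      intro c c' hcc
      have h1 : L.emb A j i (fun k => (c k : ℕ) • z) = L.emb A j i fun k => (c' k : ℕ) • z :=
        congrArg Subtype.val hcc
      have h2 := L.emb_injective A j i h1
      funext k
      have h3 := congrFun h2 k
      have h4 := nsmul_injOn_Iio_addOrderOf (x := z) (by rw [hzo]; exact (c k).2)
        (by rw [hzo]; exact (c' k).2) h3
      exact Fin.ext h4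
    have h5 := Nat.card_le_card_of_injective F hF
    rw [Nat.card_eq_fintype_card, Fintype.card_fun, Fintype.card_fin, Fintype.card_fin] at h5
    have h6 : p ^ r t < p ^ j := Nat.pow_lt_pow_right hp.one_lt hrj
    omega

end TorsionClass

end Pool.Agent.X308.R
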